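import Pool.Agent.Helper33.TY.SGen

/-!
MP_8ee768_co, project TH-Y', stage S: accepted pairs. `UOk U rs es` says that every pair (root,
entry) of the two lists is accepted by the unit program `U` with some certificate. The modules of
the certificates prove statements of this form, slice by slice; the soundness of the program is
applied once at the end.
-/

set_option autoImplicit false

namespace Pool.Agent.Helper14.TYS

open Finset
open Pool.Agent.Helper89.CV (OddCover ofMask)
open Pool.Agent.Helper97.CV Pool.Agent.Helper79.CV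
open Pool.Agent.Helper33.TY

/-- all pairs of a root and an entry are accepted -/
def UOk (U : List (ℕ × ℕ × ℕ) → List ℕ → List ℕ → Bool) (rs : List (ℕ × ℕ × ℕ))
    (es : List ℕ) : Prop :=
  ∀ p ∈ rs, ∀ e ∈ es, ∃ c, U [p] [e] [c] = true

section

variable {U : List (ℕ × ℕ × ℕ) → List ℕ → List ℕ → Bool} {rs : List (ℕ × ℕ × ℕ)} {es : List ℕ}

theorem UOk.nil : UOk U rs [] := fun _ _ _ he => absurd he List.not_mem_nil

theorem UOk.append {es' : List ℕ} (h : UOk U rs es) (h' : UOk U rs es') :
    UOk U rs (es ++ es') := by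
  intro p hp e he
  rcases List.mem_append.1 he with he | he
  · exact h p hp e he
  · exact h' p hp e he

theorem UOk.append_rs {rs' : List (ℕ × ℕ × ℕ)} (h : UOk U rs es) (h' : UOk U rs' es) :
    UOk U (rs ++ rs') es := by
  intro p hp
  rcases List.mem_append.1 hp with hp | hp
  · exact h p hp
  · exact h' p hp

/-- the next slice -/
theorem UOk.slice {k n : ℕ} (h : UOk U rs (es.take k)) (h' : UOk U rs ((es.drop k).take n)) :
    UOk U rs (es.take (k + n)) := by
  rw [List.take_add]
  exact h.append h'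

/-- the next slice of a slice -/
theorem UOk.slice' {i m k n : ℕ} (h : UOk U rs ((es.drop i).take m))
    (h' : UOk U rs ((es.drop k).take n)) (hk : i + m = k) :
    UOk U rs ((es.drop i).take (m + n)) := by
  subst hk
  rw [← List.drop_drop] at h'
  exact h.slice h'

theorem UOk.of_take {k : ℕ} (h : UOk U rs (es.take k)) (hk : es.length ≤ k) : UOk U rs es := by
  rwa [List.take_of_length_le hk] at h

/-- the next slice of the roots -/
theorem UOk.slice_rs {k n : ℕ} (h : UOk U (rs.take k) es) (h' : UOk U ((rs.drop k).take n) es) :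
    UOk U (rs.take (k + n)) es := by
  rw [List.take_add]
  exact h.append_rs h'

theorem UOk.of_take_rs {k : ℕ} (h : UOk U (rs.take k) es) (hk : rs.length ≤ k) :
    UOk U rs es := by
  rwa [List.take_of_length_le hk] at h

end

/-- a unit gives accepted pairs -/
theorem UOk.of {n : ℕ} {ty piece gP gN : ℕ → ℕ} {b T8 DT : ℕ} {rs : List (ℕ × ℕ × ℕ)}
    {es cs : List ℕ} (h : unitG n ty piece gP gN b T8 DT rs es cs = true) :
    UOk (unitG n ty piece gP gN b T8 DT) rs es := by
  intro p hp e he
  obtain ⟨c, hc⟩ := eOk_true es cs h e he p hp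
  refine ⟨c, ?_⟩
  have e1 : unitG n ty piece gP gN b T8 DT [p] [e] [c] =
      @Bool.rec (fun _ => Bool) false true
        (pOk (opsG n ty piece gP gN b) qS (fun a r => Pool.Agent.Helper25.TY.rx a b r)
          (eH T8 DT e) e c p) := rfl
  rw [e1, hc]

/-- **accepted pairs are dead**, first pair link -/
theorem UOk.deadA {n : ℕ} {ty piece gP gN G : ℕ → ℕ} {b : ℕ}
    (hglue : Pool.Agent.Helper67.TY.GluedOK n G (Pool.Agent.Helper28.TY.rlanes piece gP gN))
    (htie : ∀ t < n, Pool.Agent.Helper59.TY.gath (Pool.Agent.Helper59.TY.tA (ty t))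
      (Pool.Agent.Helper59.TY.tB (ty t)) = G t) (hb : b ≤ 4)
    {rs : List (ℕ × ℕ × ℕ)} {es : List ℕ} (hrs : ∀ p ∈ rs, p ∈ rwA)
    (h : UOk (unitG n ty piece gP gN b t8A dtA) rs es) :
    ∀ p ∈ rs, ∀ e ∈ es, PDead (Pool.Agent.Helper54.TY.QS p.1 b) p.2.1
      (cone 11 (fam 11 4 e)) := by
  intro p hp e he
  obtain ⟨c, hc⟩ := h p hp e he
  exact dead_unitGA hglue htie hb (fun p' hp' => by
    rw [List.mem_singleton] at hp'
    exact hp' ▸ hrs p hp) hc p (List.mem_singleton_self p) e (List.mem_singleton_self e)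

/-- **accepted pairs are dead**, second pair link -/
theorem UOk.deadB {n : ℕ} {ty piece gP gN G : ℕ → ℕ} {b : ℕ}
    (hglue : Pool.Agent.Helper67.TY.GluedOK n G (Pool.Agent.Helper28.TY.rlanes piece gP gN))
    (htie : ∀ t < n, Pool.Agent.Helper59.TY.gath (Pool.Agent.Helper59.TY.tA (ty t))
      (Pool.Agent.Helper59.TY.tB (ty t)) = G t) (hb : b ≤ 4)
    {rs : List (ℕ × ℕ × ℕ)} {es : List ℕ} (hrs : ∀ p ∈ rs, p ∈ rwB)
    (h : UOk (unitG n ty piece gP gN b t8B dtB) rs es) :
    ∀ p ∈ rs, ∀ e ∈ es, PDead (Pool.Agent.Helper54.TY.QS p.1 b) p.2.1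
      (cone 11 (fam 11 4 e)) := by
  intro p hp e he
  obtain ⟨c, hc⟩ := h p hp e he
  exact dead_unitGB hglue htie hb (fun p' hp' => by
    rw [List.mem_singleton] at hp'
    exact hp' ▸ hrs p hp) hc p (List.mem_singleton_self p) e (List.mem_singleton_self e)

end Pool.Agent.Helper14.TYS
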