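import Pool.Agent.Helper33.TY.SMain
import Pool.Agent.Helper14.TYS.UOk

/-!
MP_8ee768_co, project TH-Y', stage S: small steps for the modules of the certificates.
-/

set_option autoImplicit false

namespace Pool.Agent.Helper14.TYS

open Pool.Agent.Helper33.TY

theorem okA {b : ℕ} {rs : List (ℕ × ℕ × ℕ)} {es cs : List ℕ} (h : unitA b rs es cs = true) :
    UOk (unitA b) rs es := UOk.of h

theorem okB {b : ℕ} {rs : List (ℕ × ℕ × ℕ)} {es cs : List ℕ} (h : unitB b rs es cs = true) :
    UOk (unitB b) rs es := UOk.of h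

/-- the next slice of the entries -/
theorem UOk.step {U : List (ℕ × ℕ × ℕ) → List ℕ → List ℕ → Bool} {rs : List (ℕ × ℕ × ℕ)}
    {es : List ℕ} {i m k n j : ℕ} (h : UOk U rs (List.take m (List.drop i es)))
    (h' : UOk U rs (List.take n (List.drop k es))) (hk : i + m = k) (hj : m + n = j) :
    UOk U rs (List.take j (List.drop i es)) := by
  subst hj
  exact h.slice' h' hk

/-- the next slice of the roots -/
theorem UOk.stepr {U : List (ℕ × ℕ × ℕ) → List ℕ → List ℕ → Bool} {rs : List (ℕ × ℕ × ℕ)}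
    {es : List ℕ} {i m k n j : ℕ} (h : UOk U (List.take m (List.drop i rs)) es)
    (h' : UOk U (List.take n (List.drop k rs)) es) (hk : i + m = k) (hj : m + n = j) :
    UOk U (List.take j (List.drop i rs)) es := by
  subst hj
  subst hk
  rw [← List.drop_drop] at h'
  exact h.slice_rs h'

/-- all the roots -/
theorem UOk.allr {U : List (ℕ × ℕ × ℕ) → List ℕ → List ℕ → Bool} {rs : List (ℕ × ℕ × ℕ)}
    {es : List ℕ} {k : ℕ} (h : UOk U (List.take k (List.drop 0 rs)) es)
    (hk : Nat.ble rs.length k = true) : UOk U rs es := by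
  rw [List.drop_zero] at h
  exact h.of_take_rs (Nat.le_of_ble_eq_true hk)

/-- all the entries -/
theorem UOk.all {U : List (ℕ × ℕ × ℕ) → List ℕ → List ℕ → Bool} {rs : List (ℕ × ℕ × ℕ)}
    {es : List ℕ} {k : ℕ} (h : UOk U rs (List.take k (List.drop 0 es)))
    (hk : Nat.ble es.length k = true) : UOk U rs es := by
  rw [List.drop_zero] at h
  exact h.of_take (Nat.le_of_ble_eq_true hk)

theorem UOk.map {U V : List (ℕ × ℕ × ℕ) → List ℕ → List ℕ → Bool} {rs : List (ℕ × ℕ × ℕ)}
    {es : List ℕ} (h : UOk U rs es) (hUV : U = V) : UOk V rs es := hUV ▸ h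

end Pool.Agent.Helper14.TYS
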